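import Pool.Agent.Lib.CAT9.Defs
import Pool.Agent.Lib.WkD.Spec
import Pool.Agent.Lib.WkD.RO

/-!
# MP_61b266_lc: definitions of the final statement

Large cardinals, preservation and collapse of cardinals and the statement `ν = ℵ_ω` in terms of
names.
-/

namespace FTP

open Cardinal CAT9 Pool.Agent.Lib.WkD

/-- `κ` is indestructibly supercompact: it is inaccessible, and every forcing notion `E` in which
all nonempty directed sets with less than `κ` elements have lower bounds forces that for every `H`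
there is a normal fine `κ`-complete ultrafilter on the set of the subsets of `H` with less than
`κ` elements. -/
def IndSupercompact (κ : Cardinal.{0}) : Prop :=
  κ.IsInaccessible ∧ ∀ (E : Type) [Preorder E],
    (∀ S : Set E, S.Nonempty → #S < κ → DirectedOn (fun a b => b ≤ a) S →
      ∃ q, ∀ s ∈ S, q ≤ s) →
    ∀ H : Type, ∃ m : (SmallSets κ H → ROP E) → ROP E, NormalFineMeasure κ H (ROP E) m

/-- A name, below the condition `p`, for a partial function from `A` onto `B`: the relation
`F q a b` says that `q` forces `a` to be mapped to `b`. -/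
structure SurjName {P : Type} [Preorder P] (p : P) (A B : Type) where
  /-- `q` forces that `a` is mapped to `b`. -/
  F : P → A → B → Prop
  mono : ∀ q r a b, r ≤ q → F q a b → F r a b
  uniq : ∀ q a b b', F q a b → F q a b' → b = b'
  onto : ∀ q, q ≤ p → ∀ b, ∃ r, r ≤ q ∧ ∃ a, F r a b

/-- `P` forces that `ρ` is a cardinal: no condition forces that a set of smaller size is mapped
onto a set of size `ρ`. -/
def ForcesCard (P : Type) [Preorder P] (ρ : Cardinal.{0}) : Prop :=
  ∀ θ < ρ, ∀ p : P, ¬ Nonempty (SurjName p θ.ord.ToType ρ.ord.ToType)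

/-- `P` forces that `ρ` is not a cardinal. -/
def ForcesCollapsed (P : Type) [Preorder P] (ρ : Cardinal.{0}) : Prop :=
  ∀ p : P, ∃ q, q ≤ p ∧ ∃ θ < ρ, Nonempty (SurjName q θ.ord.ToType ρ.ord.ToType)

/-- `P` forces that `ν` is `ℵ_ω` and that its successor `ν⁺` is `ℵ_{ω+1}`: the cardinals preserved
by `P` are unbounded in `ν`, below every `θ < ν` all but finitely many infinite cardinals are
collapsed, and `ν⁺` is preserved. -/
def ForcesAlephOmega (P : Type) [Preorder P] (ν : Cardinal.{0}) : Prop :=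
  (∀ θ < ν, ∃ ρ, θ < ρ ∧ ρ < ν ∧ ForcesCard P ρ) ∧
  (∀ θ < ν, {ρ : Cardinal.{0} | ℵ₀ ≤ ρ ∧ ρ ≤ θ ∧ ¬ ForcesCollapsed P ρ}.Finite) ∧
  ForcesCard P (Order.succ ν)

/-- A name for a subset of `A`: the relation `In q a` says that `q` forces `a` to be in it. -/
structure SetName (P : Type) [Preorder P] (A : Type) where
  /-- `q` forces that `a` is in the set. -/
  In : P → A → Prop
  mono : ∀ q r a, r ≤ q → In q a → In r a
  dense : ∀ q a, (∀ r, r ≤ q → ∃ s, s ≤ r ∧ In s a) → In q a

/-- `P` forces that `ν` is a strong limit: for every `ρ < ν` there are `θ < ν` and `θ` names for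
subsets of `ρ` such that every subset of `ρ` is forced to be given by one of them. -/
def ForcesStrongLimit (P : Type) [Preorder P] (ν : Cardinal.{0}) : Prop :=
  ∀ ρ < ν, ∃ θ < ν, ∃ N : θ.ord.ToType → SetName P ρ.ord.ToType,
    ∀ (X : SetName P ρ.ord.ToType) (p : P), ∃ q, q ≤ p ∧ ∃ i, ∀ r, r ≤ q → ∀ a,
      (X.In r a ↔ (N i).In r a)

/-- The final statement: in a forcing extension `ν = sup κ_n` is `ℵ_ω` and a strong limit, the
tree property holds at `ν⁺ = ℵ_{ω+1}`, and after adding one Cohen real there is a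
`ν⁺`-Aronszajn tree. -/
def Final : Prop :=
  ∀ κ : ℕ → Cardinal.{0}, StrictMono κ → (∀ n, IndSupercompact (κ n)) →
    ∃ (P : Type) (_ : Preorder P), Nonempty P ∧
      ForcesAlephOmega P (⨆ n, κ n) ∧ ForcesStrongLimit P (⨆ n, κ n) ∧
      ForcesTP P (Lev (⨆ n, κ n)) (Nod (⨆ n, κ n)) ∧
      ForcesAronszajn (P × AddOmega) (Lev (⨆ n, κ n)) (Nod (⨆ n, κ n))

end FTP
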