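import Pool.Agent.Lib.FTP.Spec
import Pool.Agent.Lib.CLC.Defs

/-!
# Names for ultrafilters and measures with values in the regular open algebra
-/

namespace FTP

open Cardinal CAT9 Pool.Agent.Lib Pool.Agent.Lib.WkD Pool.Agent.Lib.P6aeb5f

section

variable {E : Type} [Preorder E]

/-- The truth value, as an element of the regular open algebra. -/
noncomputable def toB (φ : CLC.Reg E) : ROP E :=
  RO.mk ⟨{p | φ.holds p}, fun _ _ h hp => φ.mono _ _ h hp⟩

theorem em_le_toB {φ : CLC.Reg E} {p : E} : WkD.em p ≤ toB φ ↔ φ.holds p := by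
  constructor
  · intro h
    refine φ.dense p fun q hq => ?_
    by_contra hcon
    push Not at hcon
    have h1 : WkD.em q ≤ toB φ := (em_mono hq).trans h
    have h2 : toB φ ≤ (WkD.em q)ᶜ := by
      unfold toB
      rw [RO.mk_le_iff]
      intro r hr
      refine em_le_iff.1 (em_le_compl_iff.2 fun s hs hsq => ?_)
      obtain ⟨t, ht, htq⟩ : ∃ t ≤ s, t ≤ q := by
        have h3 : WkD.em s ⊓ WkD.em q ≠ ⊥ := by
          rw [inf_eq_left.2 hsq]
          exact em_ne_bot s
        obtain ⟨t, h4, h5⟩ := compat_of h3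
        exact ⟨t, h4, h5⟩
      exact hcon t htq (φ.mono _ _ (ht.trans hs) hr)
    exact not_em_compl le_rfl (h1.trans h2)
  · intro h
    refine (em_le_iff).2 ?_
    have h1 : (⟨{p | φ.holds p}, fun _ _ h hp => φ.mono _ _ h hp⟩ : LowerSet E) ≤
        (toB φ).val := by
      unfold toB
      rw [RO.val_mk]
      exact le_compl_compl
    exact h1 h

theorem le_toB {b : ROP E} {φ : CLC.Reg E} (h : ∀ p, WkD.em p ≤ b → ∃ q, q ≤ p ∧ φ.holds q) :
    b ≤ toB φ := le_of_em fun p hp => by
  obtain ⟨q, hq, h'⟩ := h p hp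
  exact ⟨q, hq, em_le_toB.2 h'⟩

theorem toB_not (φ : CLC.Reg E) : toB φ.not = (toB φ)ᶜ := by
  refine le_antisymm (le_of_em fun p hp => ⟨p, le_rfl, ?_⟩) (le_toB fun p hp => ⟨p, le_rfl, ?_⟩)
  · exact em_le_compl_iff.2 fun q hq hqs => em_le_toB.1 hp q hq (em_le_toB.1 hqs)
  · exact fun q hq hqs => em_le_compl_iff.1 hp q hq (em_le_toB.2 hqs)

theorem toB_all {ι : Type} (φ : ι → CLC.Reg E) : toB (CLC.Reg.all φ) = ⨅ i, toB (φ i) := by
  refine le_antisymm (le_iInf fun i => le_of_em fun p hp => ⟨p, le_rfl, ?_⟩)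
    (le_toB fun p hp => ⟨p, le_rfl, fun i => em_le_toB.1 (hp.trans (iInf_le _ i))⟩)
  exact em_le_toB.2 (em_le_toB.1 hp i)

theorem toB_const (P : Prop) [Decidable P] :
    toB (CLC.Reg.const P : CLC.Reg E) = if P then ⊤ else ⊥ := by
  split_ifs with h
  · exact top_le_iff.1 (le_toB fun p _ => ⟨p, le_rfl, h⟩)
  · refine le_bot_iff.1 (le_of_em fun p hp => absurd (em_le_toB.1 hp) h)

variable {κ : Cardinal.{0}} {H : Type} {m : (SmallSets κ H → ROP E) → ROP E}

theorem m_inf (hκ : ℵ₀ < κ) (hm : NormalFineMeasure κ H (ROP E) m)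
    (A B : SmallSets κ H → ROP E) : m (fun x => A x ⊓ B x) = m A ⊓ m B := by
  have h := hm.complete Bool (fun b => if b then A else B)
    ((Cardinal.lt_aleph0_of_finite Bool).trans hκ)
  rw [iInf_bool_eq] at h
  simp only [iInf_bool_eq, if_true, Bool.false_eq_true, if_false] at h
  exact h

theorem m_mono (hκ : ℵ₀ < κ) (hm : NormalFineMeasure κ H (ROP E) m)
    {A B : SmallSets κ H → ROP E} (h : ∀ x, A x ≤ B x) : m A ≤ m B := by
  have h1 := m_inf hκ hm A B
  have h2 : (fun x => A x ⊓ B x) = A := funext fun x => inf_eq_left.2 (h x)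
  rw [h2] at h1
  exact inf_eq_left.1 h1.symm

/-- Localisation below a condition. -/
theorem m_local (hκ : ℵ₀ < κ) (hm : NormalFineMeasure κ H (ROP E) m)
    {A B : SmallSets κ H → ROP E} {b : ROP E} (h : ∀ x, A x ⊓ b ≤ B x) (hb : b ≤ m A) :
    b ≤ m B := by
  have h1 : m (fun x => A x ⊓ b) = m A ⊓ b := by
    rw [m_inf hκ hm A (fun _ => b), hm.const b]
  have h2 : m A ⊓ b ≤ m B := h1 ▸ m_mono hκ hm h
  exact (le_inf hb le_rfl).trans h2

theorem inf_em_le {φ ψ : CLC.Reg E} {p : E}
    (h : ∀ q, q ≤ p → φ.holds q → ψ.holds q) : toB φ ⊓ WkD.em p ≤ toB ψ := by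
  refine le_toB fun q hq => ?_
  obtain ⟨r, hr, hrp⟩ : ∃ r ≤ q, r ≤ p := by
    have h1 : WkD.em q ⊓ WkD.em p ≠ ⊥ := by
      rw [inf_eq_left.2 (hq.trans inf_le_right)]
      exact em_ne_bot q
    obtain ⟨r, h2, h3⟩ := compat_of h1
    exact ⟨r, h2, h3⟩
  exact ⟨r, hr, h r hrp (φ.mono _ _ hr (em_le_toB.1 (hq.trans inf_le_left)))⟩

/-- The name for the ultrafilter. -/
noncomputable def ultName (hκ : ℵ₀ < κ) (hm : NormalFineMeasure κ H (ROP E) m) :
    CLC.UltName κ E H where
  ae p φ := WkD.em p ≤ m fun x => toB (φ x)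
  mono p q φ hq h := (em_mono hq).trans h
  dense p φ h := em_le_of_dense h
  sup p φ ψ h hp := m_local hκ hm (fun x => inf_em_le (h x)) hp
  proper p φ h := by
    by_contra hcon
    push Not at hcon
    have h1 : WkD.em p ≤ m fun _ => (⊥ : ROP E) := by
      refine m_local hκ hm (fun x => ?_) h
      have h2 := inf_em_le (φ := φ x) (ψ := CLC.Reg.const False) (p := p)
        (fun q hq hx => absurd hx (hcon x q hq))
      classical
      rw [toB_const, if_neg not_false] at h2
      exact h2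
    rw [hm.const] at h1
    exact em_ne_bot p (le_bot_iff.1 h1)
  ultra p φ := by
    obtain ⟨q, hq, h⟩ := exists_decide p (m fun x => toB (φ x))
    refine ⟨q, hq, h.imp_right fun h' => ?_⟩
    have h1 : (fun x => toB (φ x).not) = fun x => (toB (φ x))ᶜ := funext fun x => toB_not _
    rw [h1, hm.compl]
    exact h'
  complete ι hι p φ h := by
    have h1 : (fun x => toB (CLC.Reg.all fun i => φ i x)) = fun x => ⨅ i, toB (φ i x) :=
      funext fun x => toB_all _
    rw [h1, hm.complete ι (fun i x => toB (φ i x)) hι]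
    exact le_iInf h
  fine p a := by
    classical
    have h1 := hm.fine a
    have h2 : (fun x : SmallSets κ H => toB (CLC.Reg.const (a ∈ x.1) : CLC.Reg E)) =
        fun x => if a ∈ x.1 then ⊤ else ⊥ := funext fun x => toB_const _
    rw [h2]
    have h3 : (fun x : SmallSets κ H => (if a ∈ x.1 then ⊤ else ⊥ : ROP E)) =
        fun x => @ite _ (a ∈ x.1) (Classical.propDecidable _) ⊤ ⊥ := by
      funext x
      congr
    rw [h3, h1]
    exact le_top
  normal p φ h := by
    by_contra hcon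
    push Not at hcon
    have h1 : ∀ a, WkD.em p ≤ m fun x => (toB (φ a x))ᶜ := fun a => by
      rw [hm.compl]
      exact em_le_compl_iff.2 fun q hq => hcon q hq a
    have h2 : WkD.em p ≤ m fun x => ⨅ a, ⨅ _ : a ∈ x.1, (toB (φ a x))ᶜ := by
      rw [hm.normal fun a x => (toB (φ a x))ᶜ]
      exact le_iInf h1
    have h3 : WkD.em p ≤ m fun _ => (⊥ : ROP E) := by
      refine m_local hκ hm (b := WkD.em p)
        (A := fun x => (⨅ a, ⨅ _ : a ∈ x.1, (toB (φ a x))ᶜ) ⊓
          toB (CLC.Reg.ex fun a : x.1 => φ a x)) (fun x => ?_) ?_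
      · refine le_of_em fun q hq => ?_
        obtain ⟨r, hr, a, ha⟩ := em_le_toB.1 ((hq.trans inf_le_left).trans inf_le_right) q le_rfl
        have h4 : WkD.em r ≤ (toB (φ a x))ᶜ :=
          (em_mono hr).trans (((hq.trans inf_le_left).trans inf_le_left).trans
            ((iInf_le _ a.1).trans (iInf_le _ a.2)))
        exact (not_em_compl (em_le_toB.2 ha) h4).elim
      · rw [m_inf hκ hm]
        exact le_inf h2 h
    rw [hm.const] at h3
    exact em_ne_bot p (le_bot_iff.1 h3)

end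

/-- The two forms of indestructible supercompactness. -/
theorem IndSupercompact.clc {κ : Cardinal.{0}} (h : IndSupercompact κ) :
    CLC.IndestructiblySupercompact κ where
  unc := (isInaccessible_def.1 h.1).1
  regular := h.1.isRegular
  strongLimit a ha := h.1.isStrongPrelimit ha
  ult E _ hE L := by
    obtain ⟨m, hm⟩ := h.2 E (fun S _ h1 h2 => hE S h1 h2) L
    exact ⟨ultName (isInaccessible_def.1 h.1).1 hm⟩

end FTP
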