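import Pool.Agent.Lib.FTP.StrPP

/-!
# The final forcing notion forces the supremum of the cardinals to be a strong limit
-/

namespace FTP

open Cardinal CAT9 CLC

section

variable {κ : ℕ → Cardinal.{0}}

theorem lt_nu (hk : StrictMono κ) (n : ℕ) : κ n < nu κ :=
  (hk (Nat.lt_succ_self n)).trans_le (le_ciSup (Cardinal.bddAbove_range _) (n + 1))

theorem exists_le_of_lt_nu {ρ : Cardinal.{0}} (hρ : ρ < nu κ) : ∃ n, ρ ≤ κ n := by
  obtain ⟨n, hn⟩ := exists_lt_of_lt_ciSup hρ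
  exact ⟨n, hn.le⟩

/-- Strong limit, from the sizes and the closure of the parts. -/
theorem forcesStrongLimit_PP (hk : StrictMono κ) (h0 : ℵ₀ ≤ κ 0)
    (hlim : ∀ n, (2 : Cardinal.{0}) ^ κ n < κ (n + 1)) (a : Nod (κ 0))
    (h : IsProj (proj κ a)) (hD : ∀ m, DirectedClosed (κ m) (DD κ))
    (hE : ∀ m, DirectedClosed (κ m) (Ege κ m)) (hS : ∀ m, #(SmP a m) ≤ κ m) :
    ForcesStrongLimit (PP κ a) (nu κ) := by
  intro ρ hρ
  obtain ⟨m, hm⟩ := exists_le_of_lt_nu hρ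
  have hinf : ℵ₀ ≤ κ m := h0.trans (hk.monotone (Nat.zero_le m))
  have hA : Amb (Lev (nu κ)) (Nod (nu κ)) := amb_lev (hinf.trans (lt_nu hk m).le)
  refine ⟨2 ^ κ m, (hlim m).trans (lt_nu hk (m + 1)), ?_⟩
  exact names_PP h hinf (hD m) (hE m) (hS m) (by rw [mk_ord_toType]; exact hm)

end

end FTP
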