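import Pool.Agent.Lib.FTP.Cone
import Pool.Agent.Lib.FTP.Bridge
import Pool.Agent.Lib.FTP.StrFin

/-!
# The final statement from its parts
-/

namespace FTP

open Cardinal CAT9 CLC

/-- The assembly. -/
theorem final_of {κ : ℕ → Cardinal.{0}}
    (hP : ∀ a, IsProj (proj κ a))
    (hN : ∀ T : ∀ a, TreeName (BB κ a) (Lev (nu κ)) (Nod (nu κ)),
      ∃ a z, Nonempty (BranchName (T a) z))
    (hH : ∀ a (T : TreeName (PP κ a) (Lev (nu κ)) (Nod (nu κ))) (z : BB κ a),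
      Nonempty (BranchName (pullT T (proj κ a) (hP a)) z) → ∃ z1, Nonempty (BranchName T z1))
    (h2 : ∀ a, ForcesAronszajn (PP κ a × AddOmega) (Lev (nu κ)) (Nod (nu κ)))
    (h3 : ∀ a, ForcesAlephOmega (PP κ a) (nu κ))
    (h4 : ∀ a, ForcesStrongLimit (PP κ a) (nu κ)) :
    ∃ (P : Type) (_ : Preorder P), Nonempty P ∧
      ForcesAlephOmega P (⨆ n, κ n) ∧ ForcesStrongLimit P (⨆ n, κ n) ∧
      ForcesTP P (Lev (⨆ n, κ n)) (Nod (⨆ n, κ n)) ∧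
      ForcesAronszajn (P × AddOmega) (Lev (⨆ n, κ n)) (Nod (⨆ n, κ n)) := by
  refine assemble (P := fun a => PP κ a) (ν := nu κ) (fun T => ?_) h2 h3 h4
  obtain ⟨a, z, hB⟩ := hN fun a => pullT (T a) (proj κ a) (hP a)
  obtain ⟨z1, hz1⟩ := hH a (T a) z hB
  exact ⟨a, z1, hz1⟩

end FTP
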