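import Pool.Agent.Lib.FTP.Spec

/-!
# Restriction of a forcing notion to the conditions below a given one, and mixing of names for
trees over a maximal antichain
-/

namespace FTP

open Cardinal CAT9

/-- An embedding onto a set of conditions closed downwards. -/
structure LowEmb {P' P : Type} [Preorder P'] [Preorder P] (f : P' → P) : Prop where
  le_iff : ∀ p q, f p ≤ f q ↔ p ≤ q
  low : ∀ p q, q ≤ f p → ∃ q', f q' = q

/-- The conditions below `z`. -/
abbrev Cone (P : Type) [Preorder P] (z : P) : Type := {q : P // q ≤ z}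

section

variable {P' P : Type} [Preorder P'] [Preorder P]

theorem lowEmb_cone (z : P) : LowEmb (fun q : Cone P z => q.1) where
  le_iff _ _ := Iff.rfl
  low p q h := ⟨⟨q, h.trans p.2⟩, rfl⟩

theorem lowEmb_prod {Q : Type} [Preorder Q] {f : P' → P} (hf : LowEmb f) :
    LowEmb (fun q : P' × Q => (f q.1, q.2)) where
  le_iff p q := by
    rw [Prod.mk_le_mk, hf.le_iff]
    rfl
  low p q h := by
    obtain ⟨q', h'⟩ := hf.low p.1 q.1 h.1
    exact ⟨(q', q.2), by rw [h']⟩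

namespace LowEmb

variable {f : P' → P} (hf : LowEmb f)

include hf

theorem low' (p : P') (q : P) (h : q ≤ f p) : ∃ q', q' ≤ p ∧ f q' = q := by
  obtain ⟨q', rfl⟩ := hf.low p q h
  exact ⟨q', (hf.le_iff _ _).1 h, rfl⟩

/-- The restriction of a name for a tree. -/
def pullTree {L M : Type} [LinearOrder L] (T : TreeName P L M) : TreeName P' L M where
  R p x y := T.R (f p) x y
  mono p q x y hq h := T.mono _ _ _ _ ((hf.le_iff _ _).2 hq) h
  dense p x y h := T.dense _ _ _ fun q hq => by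
    obtain ⟨q', h1, rfl⟩ := hf.low' p q hq
    obtain ⟨r, h2, h3⟩ := h q' h1
    exact ⟨f r, (hf.le_iff _ _).2 h2, h3⟩
  lt p x y := T.lt _ _ _
  trans p x y z := T.trans _ _ _ _
  tree p x y z := T.tree _ _ _ _
  uniq p a i j z := T.uniq _ _ _ _ _
  pred p y a ha := by
    obtain ⟨q, hq, i, hi⟩ := T.pred (f p) y a ha
    obtain ⟨q', h1, rfl⟩ := hf.low' p q hq
    exact ⟨q', h1, i, hi⟩

/-- A name of a branch of the restricted tree is one for the tree. -/
theorem branch_push {L M : Type} [LinearOrder L] {T : TreeName P L M} {p : P'}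
    (B : BranchName (hf.pullTree T) p) : Nonempty (BranchName T (f p)) := by
  refine ⟨{ B := fun q a i => ∃ q', f q' = q ∧ B.B q' a i, mono := ?_, uniq := ?_,
            total := ?_, chain := ?_ }⟩
  · rintro _ r a i hr ⟨q', rfl, h⟩
    obtain ⟨r', h1, rfl⟩ := hf.low' q' r hr
    exact ⟨r', rfl, B.mono _ _ _ _ h1 h⟩
  · rintro q a i j ⟨q', h1, h⟩ ⟨q'', h2, h'⟩
    have h3 : q' ≤ q'' := (hf.le_iff _ _).1 (by rw [h1, h2])
    exact B.uniq q' a i j h (B.mono _ _ _ _ h3 h')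
  · intro q hq a
    obtain ⟨q', h1, rfl⟩ := hf.low' p q hq
    obtain ⟨r, hr, i, hi⟩ := B.total q' h1 a
    exact ⟨f r, (hf.le_iff _ _).2 hr, i, r, rfl, hi⟩
  · rintro q a b i j ⟨q', h1, h⟩ ⟨q'', h2, h'⟩ hab
    have h3 : q' ≤ q'' := (hf.le_iff _ _).1 (by rw [h1, h2])
    have h4 := B.chain q' a b i j h (B.mono _ _ _ _ h3 h') hab
    rw [← h1]
    exact h4

theorem forcesAronszajn {L M : Type} [LinearOrder L] (h : ForcesAronszajn P L M) :
    ForcesAronszajn P' L M := by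
  obtain ⟨T, hT⟩ := h
  exact ⟨hf.pullTree T, fun p ⟨B⟩ => hT (f p) (hf.branch_push B)⟩

theorem surj_push {A B : Type} {p : P'} (h : Nonempty (SurjName p A B)) :
    Nonempty (SurjName (f p) A B) := by
  obtain ⟨S⟩ := h
  refine ⟨{ F := fun q a b => ∃ q', f q' = q ∧ S.F q' a b, mono := ?_, uniq := ?_, onto := ?_ }⟩
  · rintro _ r a b hr ⟨q', rfl, h⟩
    obtain ⟨r', h1, rfl⟩ := hf.low' q' r hr
    exact ⟨r', rfl, S.mono _ _ _ _ h1 h⟩
  · rintro q a b b' ⟨q', h1, h⟩ ⟨q'', h2, h'⟩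
    have h3 : q' ≤ q'' := (hf.le_iff _ _).1 (by rw [h1, h2])
    exact S.uniq q' a b b' h (S.mono _ _ _ _ h3 h')
  · intro q hq b
    obtain ⟨q', h1, rfl⟩ := hf.low' p q hq
    obtain ⟨r, hr, a, ha⟩ := S.onto q' h1 b
    exact ⟨f r, (hf.le_iff _ _).2 hr, a, r, rfl, ha⟩

theorem surj_pull {A B : Type} {p : P'} (h : Nonempty (SurjName (f p) A B)) :
    Nonempty (SurjName p A B) := by
  obtain ⟨S⟩ := h
  refine ⟨{ F := fun q a b => S.F (f q) a b, mono := ?_, uniq := ?_, onto := ?_ }⟩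
  · exact fun q r a b hr => S.mono _ _ _ _ ((hf.le_iff _ _).2 hr)
  · exact fun q a b b' => S.uniq _ _ _ _
  · intro q hq b
    obtain ⟨r, hr, a, ha⟩ := S.onto (f q) ((hf.le_iff _ _).2 hq) b
    obtain ⟨r', h1, rfl⟩ := hf.low' q r hr
    exact ⟨r', h1, a, ha⟩

theorem forcesCard {ρ : Cardinal.{0}} (h : ForcesCard P ρ) : ForcesCard P' ρ :=
  fun θ hθ p hp => h θ hθ (f p) (hf.surj_push hp)

theorem forcesCollapsed {ρ : Cardinal.{0}} (h : ForcesCollapsed P ρ) : ForcesCollapsed P' ρ := by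
  intro p
  obtain ⟨q, hq, θ, hθ, hS⟩ := h (f p)
  obtain ⟨q', h1, rfl⟩ := hf.low' p q hq
  exact ⟨q', h1, θ, hθ, hf.surj_pull hS⟩

theorem forcesAlephOmega {ν : Cardinal.{0}} (h : ForcesAlephOmega P ν) :
    ForcesAlephOmega P' ν := by
  refine ⟨fun θ hθ => ?_, fun θ hθ => (h.2.1 θ hθ).subset fun ρ hρ => ?_, hf.forcesCard h.2.2⟩
  · obtain ⟨ρ, h1, h2, h3⟩ := h.1 θ hθ
    exact ⟨ρ, h1, h2, hf.forcesCard h3⟩
  · exact ⟨hρ.1, hρ.2.1, fun h' => hρ.2.2 (hf.forcesCollapsed h')⟩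

/-- The restriction of a name for a set. -/
def pullSet {A : Type} (X : SetName P A) : SetName P' A where
  In q a := X.In (f q) a
  mono q r a hr h := X.mono _ _ _ ((hf.le_iff _ _).2 hr) h
  dense q a h := X.dense _ _ fun r hr => by
    obtain ⟨r', h1, rfl⟩ := hf.low' q r hr
    obtain ⟨s, h2, h3⟩ := h r' h1
    exact ⟨f s, (hf.le_iff _ _).2 h2, h3⟩

omit hf in
/-- The extension of a name for a set. -/
def pushSet {A : Type} (f : P' → P) (X : SetName P' A) : SetName P A where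
  In q a := ∀ r, r ≤ q → ∃ s', f s' ≤ r ∧ X.In s' a
  mono q r a hr h s hs := h s (hs.trans hr)
  dense q a h r hr := by
    obtain ⟨s, h1, h2⟩ := h r hr
    obtain ⟨s', h3, h4⟩ := h2 s le_rfl
    exact ⟨s', h3.trans h1, h4⟩

theorem pushSet_in {A : Type} {X : SetName P' A} {q : P'} {a : A} :
    (pushSet f X).In (f q) a ↔ X.In q a := by
  constructor
  · intro h
    refine X.dense _ _ fun r hr => ?_
    obtain ⟨s', h1, h2⟩ := h (f r) ((hf.le_iff _ _).2 hr)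
    exact ⟨s', (hf.le_iff _ _).1 h1, h2⟩
  · intro h r hr
    obtain ⟨r', h1, rfl⟩ := hf.low' q r hr
    exact ⟨r', le_rfl, X.mono _ _ _ h1 h⟩

theorem forcesStrongLimit {ν : Cardinal.{0}} (h : ForcesStrongLimit P ν) :
    ForcesStrongLimit P' ν := by
  intro ρ hρ
  obtain ⟨θ, hθ, N, hN⟩ := h ρ hρ
  refine ⟨θ, hθ, fun i => hf.pullSet (N i), fun X p => ?_⟩
  obtain ⟨q, hq, i, hi⟩ := hN (pushSet f X) (f p)
  obtain ⟨q', h1, rfl⟩ := hf.low' p q hq
  refine ⟨q', h1, i, fun r hr a => ?_⟩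
  rw [← hf.pushSet_in]
  exact hi (f r) ((hf.le_iff _ _).2 hr) a

end LowEmb

end

section mixing

variable {P : Type} [Preorder P] {L M : Type} [LinearOrder L]

/-- A family of names, given below the members of a maximal antichain. -/
structure Mixer (P L M : Type) [Preorder P] [LinearOrder L] where
  /-- the antichain -/
  A : Set P
  anti : ∀ a ∈ A, ∀ b ∈ A, ∀ r, r ≤ a → r ≤ b → a = b
  max : ∀ p : P, ∃ a ∈ A, ∃ r, r ≤ p ∧ r ≤ a
  /-- the names -/
  T : ∀ a : A, TreeName (Cone P a.1) L M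

namespace Mixer

variable (X : Mixer P L M)

/-- `q` lies below a member of the antichain and forces `x < y` for the tree given there. -/
def Lo (q : P) (x y : L × M) : Prop := ∃ a : X.A, ∃ h : q ≤ a.1, (X.T a).R ⟨q, h⟩ x y

variable {X}

theorem Lo.mono {q r : P} {x y : L × M} (hr : r ≤ q) (h : X.Lo q x y) : X.Lo r x y := by
  obtain ⟨a, h1, h2⟩ := h
  exact ⟨a, hr.trans h1, (X.T a).mono _ _ _ _ (by exact hr) h2⟩

theorem Lo.get {q : P} {x y : L × M} (a : X.A) (h1 : q ≤ a.1) (h : X.Lo q x y) :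
    (X.T a).R ⟨q, h1⟩ x y := by
  obtain ⟨b, h2, h3⟩ := h
  obtain rfl : a = b := Subtype.ext (X.anti _ a.2 _ b.2 q h1 h2)
  exact h3

variable (X)

/-- The mixture of the names. -/
def mix : TreeName P L M where
  R p x y := ∀ q, q ≤ p → ∃ r, r ≤ q ∧ X.Lo r x y
  mono p q x y hq h r hr := h r (hr.trans hq)
  dense p x y h q hq := by
    obtain ⟨r, hr, h1⟩ := h q hq
    obtain ⟨s, hs, h2⟩ := h1 r le_rfl
    exact ⟨s, hs.trans hr, h2⟩
  lt p x y h := by
    obtain ⟨r, -, a, h1, h2⟩ := h p le_rfl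
    exact (X.T a).lt _ _ _ h2
  trans p x y z h h' q hq := by
    obtain ⟨r, hr, a, h1, h2⟩ := h q hq
    obtain ⟨s, hs, h3⟩ := h' r (hr.trans hq)
    exact ⟨s, hs.trans hr, a, hs.trans h1,
      (X.T a).trans _ _ _ _ ((X.T a).mono _ _ _ _ (by exact hs) h2) (h3.get a (hs.trans h1))⟩
  tree p x y z h h' hxy q hq := by
    obtain ⟨r, hr, a, h1, h2⟩ := h q hq
    obtain ⟨s, hs, h3⟩ := h' r (hr.trans hq)
    exact ⟨s, hs.trans hr, a, hs.trans h1,
      (X.T a).tree _ _ _ _ ((X.T a).mono _ _ _ _ (by exact hs) h2) (h3.get a (hs.trans h1)) hxy⟩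
  uniq p b i j z h h' := by
    obtain ⟨r, hr, a, h1, h2⟩ := h p le_rfl
    obtain ⟨s, hs, h3⟩ := h' r hr
    exact (X.T a).uniq ⟨s, hs.trans h1⟩ _ _ _ _
      ((X.T a).mono _ _ _ _ (by exact hs) h2) (h3.get a (hs.trans h1))
  pred p y b hb := by
    obtain ⟨a, ha, r, hr, hra⟩ := X.max p
    obtain ⟨q, hq, i, hi⟩ := (X.T ⟨a, ha⟩).pred ⟨r, hra⟩ y b hb
    have hq' : q.1 ≤ r := hq
    exact ⟨q.1, hq'.trans hr, i, fun s hs => ⟨s, le_rfl, Lo.mono hs ⟨⟨a, ha⟩, q.2, hi⟩⟩⟩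

theorem mix_get {q : P} {x y : L × M} (h : X.mix.R q x y) (a : X.A) (h1 : q ≤ a.1) :
    (X.T a).R ⟨q, h1⟩ x y := by
  refine (X.T a).dense _ _ _ fun r hr => ?_
  obtain ⟨s, hs, h2⟩ := h r.1 hr
  exact ⟨⟨s, hs.trans r.2⟩, hs, h2.get a _⟩

/-- If none of the trees has a branch, the mixture has none. -/
theorem mix_branch (h : ∀ (a : X.A) (p : Cone P a.1), IsEmpty (BranchName (X.T a) p)) (p : P) :
    ¬ Nonempty (BranchName X.mix p) := by
  rintro ⟨B⟩
  obtain ⟨a, ha, r, hr, hra⟩ := X.max p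
  refine (h ⟨a, ha⟩ ⟨r, hra⟩).false
    { B := fun q b i => B.B q.1 b i, mono := ?_, uniq := ?_, total := ?_, chain := ?_ }
  · exact fun q s b i hs hq => B.mono _ _ _ _ hs hq
  · exact fun q b i j => B.uniq _ _ _ _
  · intro q hq b
    obtain ⟨s, hs, i, hi⟩ := B.total q.1 (le_trans hq hr) b
    exact ⟨⟨s, hs.trans q.2⟩, hs, i, hi⟩
  · exact fun q b c i j hb hc hbc => X.mix_get (B.chain _ _ _ _ _ hb hc hbc) ⟨a, ha⟩ q.2

end Mixer

/-- A dense set contains a maximal antichain. -/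
theorem exists_maxAnti {D : Set P} (hD : ∀ p, ∃ q, q ≤ p ∧ q ∈ D) :
    ∃ A ⊆ D, (∀ a ∈ A, ∀ b ∈ A, ∀ r, r ≤ a → r ≤ b → a = b) ∧
      ∀ p : P, ∃ a ∈ A, ∃ r, r ≤ p ∧ r ≤ a := by
  obtain ⟨A, hA⟩ := zorn_subset
    {A : Set P | A ⊆ D ∧ ∀ a ∈ A, ∀ b ∈ A, ∀ r, r ≤ a → r ≤ b → a = b} (by
      intro c hc hchain
      refine ⟨⋃₀ c, ⟨Set.sUnion_subset fun s hs => (hc hs).1, ?_⟩,
        fun s hs => Set.subset_sUnion_of_mem hs⟩
      rintro a ⟨s, hs, ha⟩ b ⟨t, ht, hb⟩ r h1 h2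
      rcases hchain.total hs ht with h | h
      · exact (hc ht).2 a (h ha) b hb r h1 h2
      · exact (hc hs).2 a ha b (h hb) r h1 h2)
  refine ⟨A, hA.prop.1, hA.prop.2, fun p => ?_⟩
  by_contra hcon
  push Not at hcon
  obtain ⟨q, hq, hqD⟩ := hD p
  have h1 : insert q A ⊆ A := by
    refine hA.2 ⟨Set.insert_subset hqD hA.prop.1, ?_⟩ (Set.subset_insert _ _)
    rintro a (rfl | ha) b (rfl | hb) r h1 h2
    · rfl
    · exact absurd h2 (hcon b hb r (h1.trans hq))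
    · exact absurd h1 (hcon a ha r (h2.trans hq))
    · exact hA.prop.2 a ha b hb r h1 h2
  exact hcon q (h1 (Set.mem_insert _ _)) q hq le_rfl

/-- If no condition forces the tree property, there is a name for a tree without branches. -/
theorem exists_cone_or_aronszajn (h : ∀ z : P, ¬ ForcesTP (Cone P z) L M) :
    ForcesAronszajn P L M := by
  have h1 : ∀ p : P, ∃ q, q ≤ p ∧
      q ∈ {q : P | ∃ T : TreeName (Cone P q) L M, ∀ r, IsEmpty (BranchName T r)} := by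
    intro p
    have h2 := h p
    unfold ForcesTP at h2
    push Not at h2
    obtain ⟨T, q, hq⟩ := h2
    refine ⟨q.1, q.2, ?_⟩
    have hf : LowEmb (fun r : Cone P q.1 => (⟨r.1, r.2.trans q.2⟩ : Cone P p)) :=
      ⟨fun _ _ => Iff.rfl, fun r s hs => ⟨⟨s.1, (show s.1 ≤ r.1 from hs).trans r.2⟩, rfl⟩⟩
    refine ⟨hf.pullTree T, fun r => ⟨fun B => ?_⟩⟩
    obtain ⟨B'⟩ := hf.branch_push B
    exact (hq ⟨r.1, r.2.trans q.2⟩ r.2).false B'
  obtain ⟨A, hA, h3, h4⟩ := exists_maxAnti h1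
  choose T hT using fun a : A => hA a.2
  exact ⟨(Mixer.mk A h3 h4 T).mix, fun p => Mixer.mix_branch _ hT p⟩

end mixing

/-- The assembly: one of the given forcing notions forces the tree property below some
condition. -/
theorem assemble {ι : Type} {P : ι → Type} [∀ i, Preorder (P i)] {ν : Cardinal.{0}}
    (h1 : ∀ T : ∀ i, TreeName (P i) (Lev ν) (Nod ν), ∃ i z, Nonempty (BranchName (T i) z))
    (h2 : ∀ i, ForcesAronszajn (P i × AddOmega) (Lev ν) (Nod ν))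
    (h3 : ∀ i, ForcesAlephOmega (P i) ν) (h4 : ∀ i, ForcesStrongLimit (P i) ν) :
    ∃ (P : Type) (_ : Preorder P), Nonempty P ∧
      ForcesAlephOmega P ν ∧ ForcesStrongLimit P ν ∧
      ForcesTP P (Lev ν) (Nod ν) ∧ ForcesAronszajn (P × AddOmega) (Lev ν) (Nod ν) := by
  have h5 : ∃ i, ∃ z : P i, ForcesTP (Cone (P i) z) (Lev ν) (Nod ν) := by
    by_contra hcon
    push Not at hcon
    choose T hT using fun i => exists_cone_or_aronszajn (hcon i)
    obtain ⟨i, z, hB⟩ := h1 T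
    exact hT i z hB
  obtain ⟨i, z, h6⟩ := h5
  have hf := lowEmb_cone z
  exact ⟨Cone (P i) z, inferInstance, ⟨⟨z, le_rfl⟩⟩, hf.forcesAlephOmega (h3 i),
    hf.forcesStrongLimit (h4 i), h6, (lowEmb_prod hf).forcesAronszajn (h2 i)⟩

end FTP
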