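import Pool.Agent.Lib.FTP.Asm
import Pool.Agent.Lib.CLC.PartN2
import Pool.Agent.Lib.CLC.Sizes
import Pool.Agent.Lib.CLC.CardPP
import Pool.Agent.Lib.CLC.AlephOm
import Pool.Agent.Lib.CLC.IsProjC

/-!
# The final statement: everything except the descent and the Aronszajn tree
-/

namespace FTP

open Cardinal CAT9 CLC

theorem partN {κ : ℕ → Cardinal.{0}} (hk : StrictMono κ)
    (hI : ∀ n, IndestructiblySupercompact (κ n)) (hin : ∀ n, (κ n).IsInaccessible)
    (T : ∀ a, TreeName (BB κ a) (Lev (nu κ)) (Nod (nu κ))) :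
    ∃ a z, Nonempty (BranchName (T a) z) := by
  have hA : Amb (Lev (nu κ)) (Nod (nu κ)) := amb hI
  obtain ⟨lv, hlv⟩ := exists_lv hk hI
  obtain ⟨ιM, hιM⟩ := exists_inj_Nod (κ := κ)
  choose ιN hιN using fun n => exists_inj_kappa (κ := κ) n
  have hD0 := DD_EE0_closed hk hI
  obtain ⟨U0⟩ := (hI 0).ult (DD κ × EE0 κ) hD0 (Lev (nu κ))
  have hU : ∀ n, Nonempty (UltName (κ (n + 1)) (DD κ × Ege κ (n + 1)) (Lev (nu κ))) :=
    fun n => (hI (n + 1)).ult _ (DD_Ege_closed hk hI (n + 1)) _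
  obtain ⟨e, -⟩ := hD0 ∅ (by
    rw [Cardinal.mk_emptyCollection]
    exact Cardinal.aleph0_pos.trans (hI 0).unc) (by
    intro x hx
    exact absurd hx (Set.notMem_empty x))
  obtain ⟨a, z, -, -, hB⟩ := partN_aux (fun n => (hI n).unc) hk
    (fun n => CLC.succ_lt hI (CLC.succ_lt hI (hk (Nat.lt_succ_self n)))) kappa_le_mk
    U0 (fun n => (hU n).some) hD0 (fun n => DD_Ege_closed hk hI (n + 1))
    (fun m => dc_anti (DD_Ege_closed_succ hk hI m) (Order.le_succ _))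
    hιM (fun n => hιN (n + 1)) (bddNames_DD_EE0 hk hin) (fun c hc hck => exists_mu hc hck)
    KK_le CC_closed (Elt_le hk hI) (index_le hI) hlv T e
  exact ⟨a, z, hB⟩

/-- The final statement from the descent and the Aronszajn tree. -/
theorem final_of' {κ : ℕ → Cardinal.{0}} (hk : StrictMono κ) (hI : ∀ n, IndSupercompact (κ n))
    (hP : ∀ a, IsProj (proj κ a))
    (hH : ∀ a (T : TreeName (PP κ a) (Lev (nu κ)) (Nod (nu κ))) (z : BB κ a),
      Nonempty (BranchName (pullT T (proj κ a) (hP a)) z) → ∃ z1, Nonempty (BranchName T z1))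
    (h2 : ∀ a, ForcesAronszajn (PP κ a × AddOmega) (Lev (nu κ)) (Nod (nu κ))) :
    ∃ (P : Type) (_ : Preorder P), Nonempty P ∧
      ForcesAlephOmega P (⨆ n, κ n) ∧ ForcesStrongLimit P (⨆ n, κ n) ∧
      ForcesTP P (Lev (⨆ n, κ n)) (Nod (⨆ n, κ n)) ∧
      ForcesAronszajn (P × AddOmega) (Lev (⨆ n, κ n)) (Nod (⨆ n, κ n)) :=
  final_of hP (partN hk (fun n => (hI n).clc) (fun n => (hI n).1)) hH h2
    (forcesAlephOmega_PP hk fun n => (hI n).1)
    (CLC.forcesStrongLimit_PP hk fun n => (hI n).1)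

end FTP
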