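import Pool.Agent.Lib.CAT9.Meet

/-!
# The branch preservation lemma, in abstract form

`A` is a closed forcing notion, `J μ` are small ones, `T μ` is a name for a tree over `A × J μ`,
and `H` is a set of names for conditions of a further closed forcing notion which is compatible
with everything.  The relation `Cov a h μ j β ξ ζ` says that `(a, j)` and `h` force that the node
`(β, ξ)` lies below a fixed node determined by `ζ`.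
-/

namespace FTP

open Cardinal CAT9

/-- The data for the branch preservation lemma. -/
structure CovSys {A : Type} [Preorder A] {L M : Type} [LinearOrder L] {ι : Type} {J : ι → Type}
    [∀ μ, Preorder (J μ)] (T : ∀ μ, TreeName (A × J μ) L M) (H Z : Type)
    (κ : Cardinal.{0}) where
  /-- the node with a given number -/
  val : Z → M
  /-- `a` forces that `h'` is stronger than `h` -/
  le : A → H → H → Prop
  le_refl : ∀ a h, le a h h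
  le_trans : ∀ a h1 h2 h3, le a h1 h2 → le a h2 h3 → le a h1 h3
  le_mono : ∀ a a' h h', a' ≤ a → le a h h' → le a' h h'
  /-- `(a, j)` and `h` force that `(β, ξ)` lies below the node given by `ζ` -/
  Cov : A → H → ∀ μ : ι, J μ → L → Z → Z → Prop
  cov_a : ∀ a a' h μ j β ξ ζ, a' ≤ a → Cov a h μ j β ξ ζ → Cov a' h μ j β ξ ζ
  cov_h : ∀ a h h' μ j β ξ ζ, le a h' h → Cov a h μ j β ξ ζ → Cov a h' μ j β ξ ζ
  cov_j : ∀ a h μ j j' β ξ ζ, j' ≤ j → Cov a h μ j β ξ ζ → Cov a h μ j' β ξ ζ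
  closA : DirectedClosed (Order.succ κ) A
  closH : ∀ (a : A) (W : Type) (h : W → H), #W ≤ κ → Nonempty W →
    (∀ v w, ∃ u, le a (h u) (h v) ∧ le a (h u) (h w)) → ∃ h', ∀ w, le a h' (h w)
  P2 : ∀ (a : A) (γ : L), ∃ β, γ < β ∧ ∃ a', a' ≤ a ∧ ∀ a'', a'' ≤ a' → ∀ h, ∃ a3, a3 ≤ a'' ∧
    ∃ h', le a3 h' h ∧ ∃ (μ : ι) (j : J μ) (ξ ζ : Z), Cov a3 h' μ j β ξ ζ
  P3 : ∀ a h μ j α β ξ ξ' ζ, α < β → Cov a h μ j α ξ ζ → Cov a h μ j β ξ' ζ →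
    (T μ).R (a, j) (α, val ξ) (β, val ξ')

section

variable {A : Type} [Preorder A] {L M : Type} [LinearOrder L] {ι : Type} {J : ι → Type}
  [∀ μ, Preorder (J μ)] {T : ∀ μ, TreeName (A × J μ) L M} {H Z : Type} {κ : Cardinal.{0}}

namespace CovSys

variable (C : CovSys T H Z κ)

/-- No common covering above `b`. -/
def Done (a : A) (h0 h1 : H) (μ : ι) (j : J μ) (ζ : Z) (b : L) : Prop :=
  ∀ a', a' ≤ a → ∀ h0' h1', C.le a' h0' h0 → C.le a' h1' h1 → ∀ β, b < β → ∀ ξ,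
    ¬ (C.Cov a' h0' μ j β ξ ζ ∧ C.Cov a' h1' μ j β ξ ζ)

theorem Done.mono {a a' : A} {h0 h1 h0' h1' : H} {μ : ι} {j : J μ} {ζ : Z} {b : L}
    (hd : C.Done a h0 h1 μ j ζ b) (ha : a' ≤ a) (h0l : C.le a' h0' h0) (h1l : C.le a' h1' h1) :
    C.Done a' h0' h1' μ j ζ b := by
  intro a2 ha2 k0 k1 l0 l1 β hβ ξ
  exact hd a2 (ha2.trans ha) k0 k1
    (C.le_trans _ _ _ _ l0 (C.le_mono _ _ _ _ ha2 h0l))
    (C.le_trans _ _ _ _ l1 (C.le_mono _ _ _ _ ha2 h1l)) β hβ ξ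

/-- The branch obtained if no pair can be made done. -/
theorem exists_done (hno : ∀ μ p, ¬ Nonempty (BranchName (T μ) p)) (a : A) (h0 h1 : H) (μ : ι)
    (j : J μ) (ζ : Z) :
    ∃ a', a' ≤ a ∧ ∃ h0' h1', C.le a' h0' h0 ∧ C.le a' h1' h1 ∧
      ∃ b, C.Done a' h0' h1' μ j ζ b := by
  classical
  by_contra hcon
  push Not at hcon
  -- common coverings
  have key : ∀ a', a' ≤ a → ∀ j', j' ≤ j → ∀ h0' h1', C.le a' h0' h0 → C.le a' h1' h1 → ∀ b,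
      ∃ a'', a'' ≤ a' ∧ ∃ k0 k1, C.le a'' k0 h0' ∧ C.le a'' k1 h1' ∧ ∃ β, b < β ∧ ∃ ξ,
        C.Cov a'' k0 μ j' β ξ ζ ∧ C.Cov a'' k1 μ j' β ξ ζ := by
    intro a' ha' j' hj' h0' h1' l0 l1 b
    have h := hcon a' ha' h0' h1' l0 l1 b
    unfold Done at h
    push Not at h
    obtain ⟨a2, ha2, k0, k1, m0, m1, β, hβ, ξ, c0, c1⟩ := h
    exact ⟨a2, ha2, k0, k1, m0, m1, β, hβ, ξ, C.cov_j _ _ _ _ _ _ _ _ hj' c0,
      C.cov_j _ _ _ _ _ _ _ _ hj' c1⟩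
  let Bel : A × J μ → L → M → L → Z → Prop := fun q α m β ξ =>
    (α = β ∧ m = C.val ξ) ∨ (T μ).R q (α, m) (β, C.val ξ)
  have Bel_mono : ∀ q r α m β ξ, r ≤ q → Bel q α m β ξ → Bel r α m β ξ := by
    intro q r α m β ξ hr h
    rcases h with h | h
    · exact Or.inl h
    · exact Or.inr ((T μ).mono _ _ _ _ hr h)
  have Bel_lt : ∀ q α m β ξ y, α ≤ β → Bel q α m β ξ → (T μ).R q (β, C.val ξ) y →
      (T μ).R q (α, m) y := by
    intro q α m β ξ y _ h hy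
    rcases h with ⟨rfl, rfl⟩ | h
    · exact hy
    · exact (T μ).trans _ _ _ _ h hy
  let B : A × J μ → L → M → Prop := fun q α m => q ≤ (a, j) ∧ ∃ h', C.le q.1 h' h0 ∧
    ∃ β ξ, α ≤ β ∧ C.Cov q.1 h' μ q.2 β ξ ζ ∧ Bel q α m β ξ
  have Bmono : ∀ q r α m, r ≤ q → B q α m → B r α m := by
    rintro q r α m hr ⟨hq, h', hl, β, ξ, hαβ, hc, hb⟩
    exact ⟨hr.trans hq, h', C.le_mono _ _ _ _ hr.1 hl, β, ξ, hαβ,
      C.cov_j _ _ _ _ _ _ _ _ hr.2 (C.cov_a _ _ _ _ _ _ _ _ hr.1 hc), Bel_mono _ _ _ _ _ _ hr hb⟩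
  have Buniq : ∀ q α m m', B q α m → B q α m' → m = m' := by
    rintro q α m m' ⟨hq, h', hl, β, ξ, hαβ, hc, hb⟩ ⟨-, h2, hl2, β2, ξ2, hαβ2, hc2, hb2⟩
    -- mediate with `h1`
    obtain ⟨a1, ha1, k0, k1, m0, m1, δ, hδ, ρ, c0, c1⟩ :=
      key q.1 hq.1 q.2 hq.2 h' h1 hl (C.le_refl _ _) (max β β2)
    obtain ⟨a2, ha2, k2, k3, m2, m3, ε, hε, σ, c2, c3⟩ :=
      key a1 (ha1.trans hq.1) q.2 hq.2 h2 k1 (C.le_mono _ _ _ _ ha1 hl2) m1 (max δ (max β β2))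
    have ha21 : a2 ≤ q.1 := ha2.trans ha1
    have e1 : (T μ).R (a2, q.2) (β, C.val ξ) (δ, C.val ρ) := by
      refine C.P3 a2 k0 μ q.2 β δ ξ ρ ζ ((le_max_left _ _).trans_lt hδ) ?_ ?_
      · exact C.cov_a _ _ _ _ _ _ _ _ ha2 (C.cov_h _ _ _ _ _ _ _ _ m0
          (C.cov_a _ _ _ _ _ _ _ _ ha1 hc))
      · exact C.cov_a _ _ _ _ _ _ _ _ ha2 c0
    have e2 : (T μ).R (a2, q.2) (δ, C.val ρ) (ε, C.val σ) := by
      refine C.P3 a2 k3 μ q.2 δ ε ρ σ ζ ((le_max_left _ _).trans_lt hε) ?_ c3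
      exact C.cov_h _ _ _ _ _ _ _ _ m3 (C.cov_a _ _ _ _ _ _ _ _ ha2 c1)
    have e3 : (T μ).R (a2, q.2) (β2, C.val ξ2) (ε, C.val σ) := by
      refine C.P3 a2 k2 μ q.2 β2 ε ξ2 σ ζ (((le_max_right _ _).trans (le_max_right _ _)).trans_lt hε)
        ?_ c2
      exact C.cov_h _ _ _ _ _ _ _ _ m2 (C.cov_a _ _ _ _ _ _ _ _ ha21 hc2)
    have hq2 : (a2, q.2) ≤ q := ⟨ha21, le_rfl⟩
    have f1 := Bel_lt (a2, q.2) α m β ξ _ hαβ (Bel_mono _ _ _ _ _ _ hq2 hb)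
      ((T μ).trans _ _ _ _ e1 e2)
    have f2 := Bel_lt (a2, q.2) α m' β2 ξ2 _ hαβ2 (Bel_mono _ _ _ _ _ _ hq2 hb2) e3
    exact (T μ).uniq _ _ _ _ _ f1 f2
  refine hno μ (a, j) ⟨⟨B, Bmono, Buniq, ?_, ?_⟩⟩
  · intro q hq α
    obtain ⟨a1, ha1, k0, k1, m0, m1, δ, hδ, ρ, c0, c1⟩ :=
      key q.1 hq.1 q.2 hq.2 h0 h1 (C.le_refl _ _) (C.le_refl _ _) α
    obtain ⟨r, hr, m, hm⟩ := (T μ).pred (a1, q.2) (δ, C.val ρ) α hδ
    exact ⟨r, hr.trans ⟨ha1, le_rfl⟩, m, hr.trans ((show (a1, q.2) ≤ (a, j) from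
      ⟨ha1.trans hq.1, hq.2⟩)), k0, C.le_mono _ _ _ _ hr.1 m0, δ, ρ, hδ.le,
      C.cov_j _ _ _ _ _ _ _ _ hr.2 (C.cov_a _ _ _ _ _ _ _ _ hr.1 c0), Or.inr hm⟩
  · intro q α β m m' hB hB' hlt
    refine (T μ).dense _ _ _ fun q' hq' => ?_
    obtain ⟨r, hr, m2, hm2⟩ := (T μ).pred q' (β, m') α hlt
    refine ⟨r, hr, ?_⟩
    have hrq := hr.trans hq'
    have h1 : B r α m2 := by
      obtain ⟨hq3, h', hl, δ, ξ, hαβ, hc, hb⟩ := Bmono _ _ _ _ hrq hB'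
      refine ⟨hq3, h', hl, δ, ξ, hlt.le.trans hαβ, hc, Or.inr ?_⟩
      rcases hb with ⟨rfl, rfl⟩ | hb
      · exact hm2
      · exact (T μ).trans _ _ _ _ hm2 hb
    have := Buniq r α m m2 (Bmono _ _ _ _ hrq hB) h1
    rw [this]
    exact hm2

/-- Triples of a condition and two names. -/
structure Tri (C : CovSys T H Z κ) where
  a : A
  h0 : H
  h1 : H

instance : Preorder (Tri C) where
  le x y := x.a ≤ y.a ∧ C.le x.a x.h0 y.h0 ∧ C.le x.a x.h1 y.h1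
  le_refl x := ⟨le_rfl, C.le_refl _ _, C.le_refl _ _⟩
  le_trans x y z h1 h2 := ⟨h1.1.trans h2.1,
    C.le_trans _ _ _ _ h1.2.1 (C.le_mono _ _ _ _ h1.1 h2.2.1),
    C.le_trans _ _ _ _ h1.2.2 (C.le_mono _ _ _ _ h1.1 h2.2.2)⟩

theorem tri_closed (hne : Nonempty H) : DirectedClosed κ (Tri C) := by
  classical
  intro S hS hdir
  rcases S.eq_empty_or_nonempty with rfl | hSne
  · obtain ⟨a, -⟩ := C.closA ∅ (by simp) (fun x hx => absurd hx (Set.notMem_empty x))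
    obtain ⟨h⟩ := hne
    exact ⟨⟨a, h, h⟩, by simp⟩
  have h1 : #(Tri.a '' S) ≤ Order.succ κ :=
    (Cardinal.mk_image_le.trans hS).trans (Order.le_succ κ)
  obtain ⟨a, ha⟩ := C.closA (Tri.a '' S) h1 (by
    rintro _ ⟨x, hx, rfl⟩ _ ⟨y, hy, rfl⟩
    obtain ⟨z, hz, hzx, hzy⟩ := hdir x hx y hy
    exact ⟨z.a, ⟨z, hz, rfl⟩, hzx.1, hzy.1⟩)
  have hSn : Nonempty S := hSne.to_subtype
  obtain ⟨h0, hh0⟩ := C.closH a S (fun x => x.1.h0) hS hSn (by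
    rintro ⟨x, hx⟩ ⟨y, hy⟩
    obtain ⟨z, hz, hzx, hzy⟩ := hdir x hx y hy
    exact ⟨⟨z, hz⟩, C.le_mono _ _ _ _ (ha _ ⟨z, hz, rfl⟩) hzx.2.1,
      C.le_mono _ _ _ _ (ha _ ⟨z, hz, rfl⟩) hzy.2.1⟩)
  obtain ⟨h1, hh1⟩ := C.closH a S (fun x => x.1.h1) hS hSn (by
    rintro ⟨x, hx⟩ ⟨y, hy⟩
    obtain ⟨z, hz, hzx, hzy⟩ := hdir x hx y hy
    exact ⟨⟨z, hz⟩, C.le_mono _ _ _ _ (ha _ ⟨z, hz, rfl⟩) hzx.2.2,
      C.le_mono _ _ _ _ (ha _ ⟨z, hz, rfl⟩) hzy.2.2⟩)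
  exact ⟨⟨a, h0, h1⟩, fun x hx => ⟨ha _ ⟨x, hx, rfl⟩, hh0 ⟨x, hx⟩, hh1 ⟨x, hx⟩⟩⟩

/-- All tasks are done. -/
def AllDone (a : A) (h0 h1 : H) (b : (Σ μ, J μ) × Z → L) : Prop :=
  ∀ t : (Σ μ, J μ) × Z, C.Done a h0 h1 t.1.1 t.1.2 t.2 (b t)

theorem exists_allDone (hκ : ℵ₀ ≤ κ) (hJ : #((Σ μ, J μ) × Z) ≤ κ)
    (hno : ∀ μ p, ¬ Nonempty (BranchName (T μ) p)) (a : A) (h0 h1 : H) :
    ∃ a', a' ≤ a ∧ ∃ h0' h1', C.le a' h0' h0 ∧ C.le a' h1' h1 ∧ ∃ b,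
      C.AllDone a' h0' h1' b := by
  classical
  obtain ⟨r, hr, hrD⟩ := meet hκ (C.tri_closed ⟨h0⟩) hJ
    (fun t => {x : Tri C | ∃ b, C.Done x.a x.h0 x.h1 t.1.1 t.1.2 t.2 b}) ⟨a, h0, h1⟩
    (by
      rintro t x y hyx ⟨b, hb⟩
      exact ⟨b, hb.mono C hyx.1 hyx.2.1 hyx.2.2⟩)
    (by
      rintro t x -
      obtain ⟨a', ha', k0, k1, l0, l1, hb⟩ := C.exists_done hno x.a x.h0 x.h1 t.1.1 t.1.2 t.2
      exact ⟨⟨a', k0, k1⟩, ⟨ha', l0, l1⟩, hb⟩)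
  choose b hb using hrD
  exact ⟨r.a, hr.1, r.h0, r.h1, hr.2.1, hr.2.2, b, hb⟩

/-- The nodes of the comb. -/
structure Nd (C : CovSys T H Z κ) (K : Type) where
  lab : K
  a : A
  g : H
  m : H
  s : H
  hm : C.le a m g
  hs : C.le a s g

variable {K : Type}

instance : Preorder (Nd C K) where
  le x y := x = y ∨ (x.a ≤ y.a ∧ C.le x.a x.g y.m)
  le_refl x := Or.inl rfl
  le_trans x y z h1 h2 := by
    rcases h1 with rfl | h1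
    · exact h2
    · rcases h2 with rfl | h2
      · exact Or.inr h1
      · exact Or.inr ⟨h1.1.trans h2.1, C.le_trans _ _ _ _ h1.2
          (C.le_trans _ _ _ _ (C.le_mono _ _ _ _ h1.1 y.hm) (C.le_mono _ _ _ _ h1.1 h2.2))⟩

theorem Nd.le_def {x y : Nd C K} : x ≤ y ↔ x = y ∨ (x.a ≤ y.a ∧ C.le x.a x.g y.m) := Iff.rfl

theorem Nd.le_a {x y : Nd C K} (h : x ≤ y) : x.a ≤ y.a := by
  rcases h with rfl | h
  · exact le_rfl
  · exact h.1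

theorem Nd.le_m {x y : Nd C K} (h : x ≤ y) : C.le x.a x.m y.m := by
  rcases h with rfl | h
  · exact C.le_refl _ _
  · exact C.le_trans _ _ _ _ x.hm h.2

theorem nd_closed (hne : Nonempty H) (k0 : K) : DirectedClosed κ (Nd C K) := by
  classical
  intro S hS hdir
  rcases S.eq_empty_or_nonempty with rfl | hSne
  · obtain ⟨a, -⟩ := C.closA ∅ (by simp) (fun x hx => absurd hx (Set.notMem_empty x))
    obtain ⟨h⟩ := hne
    exact ⟨⟨k0, a, h, h, h, C.le_refl _ _, C.le_refl _ _⟩, by simp⟩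
  have h1 : #(Nd.a '' S) ≤ Order.succ κ :=
    (Cardinal.mk_image_le.trans hS).trans (Order.le_succ κ)
  obtain ⟨a, ha⟩ := C.closA (Nd.a '' S) h1 (by
    rintro _ ⟨x, hx, rfl⟩ _ ⟨y, hy, rfl⟩
    obtain ⟨z, hz, hzx, hzy⟩ := hdir x hx y hy
    exact ⟨z.a, ⟨z, hz, rfl⟩, Nd.le_a C hzx, Nd.le_a C hzy⟩)
  have hSn : Nonempty S := hSne.to_subtype
  obtain ⟨h0, hh0⟩ := C.closH a S (fun x => x.1.m) hS hSn (by
    rintro ⟨x, hx⟩ ⟨y, hy⟩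
    obtain ⟨z, hz, hzx, hzy⟩ := hdir x hx y hy
    exact ⟨⟨z, hz⟩, C.le_mono _ _ _ _ (ha _ ⟨z, hz, rfl⟩) (Nd.le_m C hzx),
      C.le_mono _ _ _ _ (ha _ ⟨z, hz, rfl⟩) (Nd.le_m C hzy)⟩)
  exact ⟨⟨k0, a, h0, h0, h0, C.le_refl _ _, C.le_refl _ _⟩, fun x hx =>
    Or.inr ⟨ha _ ⟨x, hx, rfl⟩, hh0 ⟨x, hx⟩⟩⟩

end CovSys

/-- **The branch preservation lemma.** -/
theorem exists_branch (C : CovSys T H Z κ) (hA : Nonempty A) (hH : Nonempty H) (hκ : ℵ₀ ≤ κ)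
    (hJ : #(Σ μ, J μ) ≤ κ) (hZ : #Z ≤ κ)
    (hbdd : ∀ (W : Type) (f : W → L), #W ≤ Order.succ κ → ∃ b, ∀ w, f w < b) :
    ∃ μ p, Nonempty (BranchName (T μ) p) := by
  classical
  by_contra hno
  push Not at hno
  replace hno : ∀ μ p, ¬ Nonempty (BranchName (T μ) p) := fun μ p =>
    not_nonempty_iff.2 (hno μ p)
  obtain ⟨a0⟩ := hA
  obtain ⟨h0⟩ := hH
  have hJZ : #((Σ μ, J μ) × Z) ≤ κ := by
    rw [Cardinal.mk_prod, Cardinal.lift_id, Cardinal.lift_id]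
    exact (mul_le_mul' hJ hZ).trans (Cardinal.mul_eq_self hκ).le
  let Θ : Type := (Order.succ κ).ord.ToType
  have hΘ : #Θ = Order.succ κ := mk_ord_toType _
  have hinit : ∀ k : Θ, #{k' : Θ // k' < k} ≤ κ := by
    intro k
    have h := mk_Iio_lt (α := Θ) k (by simp [Θ])
    rw [hΘ] at h
    exact Order.lt_succ_iff.1 h
  have hΘne : Nonempty Θ := by
    rw [← Cardinal.mk_ne_zero_iff, hΘ]
    exact (aleph0_pos.trans_le (hκ.trans (Order.le_succ κ))).ne'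
  obtain ⟨θ0⟩ := hΘne
  -- the comb
  obtain ⟨r, hrD, -, hr⟩ := chain_meet hκ (C.nd_closed (K := Θ) ⟨h0⟩ θ0) (K := Θ) hinit
    (fun k => {x : C.Nd Θ | x.lab = k ∧ ∃ b, C.AllDone x.a x.s x.m b})
    ⟨θ0, a0, h0, h0, h0, C.le_refl _ _, C.le_refl _ _⟩
    (by
      intro k x _
      obtain ⟨a', ha', k0, k1, l0, l1, b, hb⟩ := C.exists_allDone hκ hJZ hno x.a x.m x.m
      exact ⟨⟨k, a', x.m, k1, k0, l1, l0⟩, Or.inr ⟨ha', C.le_refl _ _⟩, rfl, b, hb⟩)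
  have hlab : ∀ k, (r k).lab = k := fun k => (hrD k).1
  replace hrD : ∀ k, ∃ b, C.AllDone (r k).a (r k).s (r k).m b := fun k => (hrD k).2
  choose b hb using hrD
  -- a lower bound
  obtain ⟨a1, ha1⟩ := C.closA (Set.range fun k => (r k).a)
    (Cardinal.mk_range_le.trans hΘ.le) (by
      rintro _ ⟨k, rfl⟩ _ ⟨l, rfl⟩
      rcases lt_trichotomy k l with h | h | h
      · exact ⟨_, ⟨l, rfl⟩, CovSys.Nd.le_a C (hr k l h), le_rfl⟩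
      · subst h
        exact ⟨_, ⟨k, rfl⟩, le_rfl, le_rfl⟩
      · exact ⟨_, ⟨k, rfl⟩, le_rfl, CovSys.Nd.le_a C (hr l k h)⟩)
  replace ha1 : ∀ k, a1 ≤ (r k).a := fun k => ha1 _ ⟨k, rfl⟩
  -- a bound for all tasks
  obtain ⟨bs, hbs⟩ := hbdd (Θ × ((Σ μ, J μ) × Z)) (fun t => b t.1 t.2) (by
    rw [Cardinal.mk_prod, Cardinal.lift_id, Cardinal.lift_id, hΘ]
    refine (mul_le_mul' le_rfl (hJZ.trans (Order.le_succ κ))).trans ?_
    exact (Cardinal.mul_eq_self (hκ.trans (Order.le_succ κ))).le)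
  obtain ⟨β, hβ, a2, ha2, hP2⟩ := C.P2 a1 bs
  -- decide the coverings of the sides
  obtain ⟨u, huD, hu2, hu⟩ := chain_meet hκ (Q := A) (μ := κ)
    (fun S hS hd => C.closA S (hS.trans (Order.le_succ κ)) hd) (K := Θ) hinit
    (fun k => {a : A | ∃ h', C.le a h' (r k).s ∧ ∃ (t : (Σ μ, J μ) × Z) (ξ : Z),
      C.Cov a h' t.1.1 t.1.2 β ξ t.2}) a2
    (by
      intro k a ha
      obtain ⟨a3, ha3, h', hh', μ, j, ξ, ζ, hc⟩ := hP2 a ha (r k).s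
      exact ⟨a3, ha3, h', hh', (⟨μ, j⟩, ζ), ξ, hc⟩)
  choose h' hh' t ξ hc using huD
  -- pigeonhole
  obtain ⟨k, l, hkl, hteq⟩ : ∃ k l, k < l ∧ (t k, ξ k) = (t l, ξ l) := by
    by_contra hcon
    push Not at hcon
    have hinj : Function.Injective fun k => (t k, ξ k) := by
      intro k l h
      rcases lt_trichotomy k l with h' | h' | h'
      · exact absurd h (hcon k l h')
      · exact h'
      · exact absurd h.symm (hcon l k h')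
    have h1 := Cardinal.mk_le_of_injective hinj
    have h2 : #(((Σ μ, J μ) × Z) × Z) ≤ κ := by
      rw [Cardinal.mk_prod, Cardinal.lift_id, Cardinal.lift_id]
      exact (mul_le_mul' hJZ hZ).trans (Cardinal.mul_eq_self hκ).le
    rw [hΘ] at h1
    exact absurd (h1.trans h2) (not_le.2 (Order.lt_succ κ))
  have ht : t k = t l := congrArg Prod.fst hteq
  have hξ : ξ k = ξ l := congrArg Prod.snd hteq
  have hulk := hu k l hkl
  have hla : u l ≤ a1 := (hu2 l).trans ha2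
  have hlrk : u l ≤ (r k).a := hla.trans (ha1 k)
  have hlrl : u l ≤ (r l).a := hla.trans (ha1 l)
  refine hb k (t k) (u l) hlrk (h' k) (h' l) (C.le_mono _ _ _ _ hulk (hh' k)) ?_ β
    ((hbs (k, t k)).trans hβ) (ξ k) ⟨C.cov_a _ _ _ _ _ _ _ _ hulk (hc k), ?_⟩
  · rcases hr k l hkl with h | h
    · exact absurd ((hlab l).symm.trans ((congrArg CovSys.Nd.lab h).trans (hlab k))) hkl.ne'
    · exact C.le_trans _ _ _ _ (hh' l) (C.le_trans _ _ _ _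
        (C.le_mono _ _ _ _ hlrl (r l).hs) (C.le_mono _ _ _ _ hlrl h.2))
  · rw [ht, hξ]
    exact hc l

end

end FTP
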