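import Pool.Agent.Lib.FTP.FinN
import Pool.Agent.Lib.CTF.AronPP

/-!
# The final statement
-/

namespace FTP

open Cardinal CAT9 CLC

theorem main (κ : ℕ → Cardinal.{0}) (hk : StrictMono κ) (hI : ∀ n, IndSupercompact (κ n)) :
    ∃ (P : Type) (_ : Preorder P), Nonempty P ∧
      ForcesAlephOmega P (⨆ n, κ n) ∧ ForcesStrongLimit P (⨆ n, κ n) ∧
      ForcesTP P (Lev (⨆ n, κ n)) (Nod (⨆ n, κ n)) ∧
      ForcesAronszajn (P × AddOmega) (Lev (⨆ n, κ n)) (Nod (⨆ n, κ n)) := by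
  have hin : ∀ n, (κ n).IsInaccessible := fun n => (hI n).1
  refine final_of' hk hI (fun a => CTF.proj_isProj a (hin 0).aleph0_lt.le) (fun a T z hB => ?_)
    (fun a => CTF.aron_PP hk hin a)
  obtain ⟨B⟩ := hB
  obtain ⟨z1, -, h⟩ := CTF.partH a hk hin T _ z B
  exact ⟨z1, h⟩

end FTP
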