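import Pool.Agent.Lib.FTP.Spec
import Pool.Agent.Lib.CLC.Join

/-!
# Names for subsets of small sets are given by names over the small part
-/

namespace FTP

open Cardinal CAT9 CLC

section

variable {P E S : Type} [Preorder P] [Preorder E] [Preorder S] {A : Type}

/-- The name given by a set of pairs. -/
def nameOf (σ : P → S) (W : Set (A × S)) : SetName P A where
  In q a := ∀ r, r ≤ q → ∃ t, t ≤ r ∧ ∃ s, (a, s) ∈ W ∧ σ t ≤ s
  mono q r a hr h t ht := h t (ht.trans hr)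
  dense q a h r hr := by
    obtain ⟨s, hs, h1⟩ := h r hr
    obtain ⟨t, ht, h2⟩ := h1 s le_rfl
    exact ⟨t, ht.trans hs, h2⟩

/-- Over a product of a small and a closed forcing notion every name for a subset of a small set
is densely given by a name over the small part. -/
theorem exists_nameOf {π : E × S → P} (hπ : IsProj π) {σ : P → S}
    (hσ : ∀ p q, q ≤ p → σ q ≤ σ p) (hπσ : ∀ z, σ (π z) = z.2) (hsurj : ∀ p, ∃ z, π z ≤ p)
    {χ : Cardinal.{0}} (hχ : ℵ₀ ≤ χ) (hE : DirectedClosed χ E) (hA : #A ≤ χ) (hS : #S ≤ χ)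
    (X : SetName P A) (p : P) :
    ∃ q, q ≤ p ∧ ∃ W : Set (A × S), ∀ r, r ≤ q → ∀ a, X.In r a ↔ (nameOf σ W).In r a := by
  obtain ⟨⟨e0, s0⟩, hz0⟩ := hsurj p
  let D : A × S → Set E := fun k => {e | ∃ s, s ≤ k.2 ∧
    (X.In (π (e, s)) k.1 ∨ ∀ r, r ≤ π (e, s) → ¬ X.In r k.1)}
  obtain ⟨e1, he1, hD⟩ := meet hχ hE (K := A × S) (by
      rw [Cardinal.mk_prod, Cardinal.lift_id, Cardinal.lift_id]
      exact (mul_le_mul' hA hS).trans (Cardinal.mul_eq_self hχ).le) D e0 (by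
      rintro ⟨a, s⟩ e e' hee ⟨s', hs', h⟩
      have h1 : π (e', s') ≤ π (e, s') := hπ.mono _ _ ⟨hee, le_rfl⟩
      refine ⟨s', hs', h.imp (fun h => X.mono _ _ _ h1 h) fun h r hr => h r (hr.trans h1)⟩) (by
      rintro ⟨a, s⟩ e -
      by_cases hex : ∃ r, r ≤ π (e, s) ∧ X.In r a
      · obtain ⟨r, hr, hra⟩ := hex
        obtain ⟨⟨e', s'⟩, h1, h2⟩ := hπ.lift _ _ hr
        exact ⟨e', h1.1, s', h1.2, Or.inl (X.mono _ _ _ h2 hra)⟩
      · push Not at hex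
        exact ⟨e, le_rfl, s, le_rfl, Or.inr hex⟩)
  refine ⟨π (e1, s0), (hπ.mono _ _ (show (e1, s0) ≤ (e0, s0) from ⟨he1, le_rfl⟩)).trans hz0,
    {k | X.In (π (e1, k.2)) k.1}, fun r hr a => ⟨fun h r1 hr1 => ?_, fun h => ?_⟩⟩
  · obtain ⟨⟨e2, s2⟩, h1, h2⟩ := hπ.lift _ _ (hr1.trans hr)
    obtain ⟨s3, h3, h4 | h4⟩ := hD (a, s2)
    · refine ⟨π (e2, s3), (hπ.mono _ _ (show (e2, s3) ≤ (e2, s2) from ⟨le_rfl, h3⟩)).trans h2,
        s3, h4, ?_⟩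
      rw [hπσ]
    · refine absurd (X.mono _ _ _ ?_ h) (h4 (π (e2, s3))
        (hπ.mono _ _ (show (e2, s3) ≤ (e1, s3) from ⟨h1.1, le_rfl⟩)))
      exact ((hπ.mono _ _ (show (e2, s3) ≤ (e2, s2) from ⟨le_rfl, h3⟩)).trans h2).trans hr1
  · refine X.dense _ _ fun r1 hr1 => ?_
    obtain ⟨t, ht, s, hs, hts⟩ := h r1 hr1
    obtain ⟨⟨e2, s2⟩, h1, h2⟩ := hπ.lift _ _ (ht.trans (hr1.trans hr))
    refine ⟨π (e2, s2), h2.trans ht, X.mono _ _ _ ?_ hs⟩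
    refine hπ.mono _ _ (show (e2, s2) ≤ (e1, s) from ⟨h1.1, ?_⟩)
    have h3 := hσ _ _ h2
    rw [hπσ] at h3
    exact h3.trans hts

/-- The form used for strong limits. -/
theorem exists_names {π : E × S → P} (hπ : IsProj π) {σ : P → S}
    (hσ : ∀ p q, q ≤ p → σ q ≤ σ p) (hπσ : ∀ z, σ (π z) = z.2) (hsurj : ∀ p, ∃ z, π z ≤ p)
    {χ : Cardinal.{0}} (hχ : ℵ₀ ≤ χ) (hE : DirectedClosed χ E) (hA : #A ≤ χ) (hS : #S ≤ χ) :
    ∃ N : (2 ^ χ : Cardinal.{0}).ord.ToType → SetName P A, ∀ (X : SetName P A) (p : P),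
      ∃ q, q ≤ p ∧ ∃ i, ∀ r, r ≤ q → ∀ a, X.In r a ↔ (N i).In r a := by
  have h1 : #(Set (A × S)) ≤ #((2 ^ χ : Cardinal.{0}).ord.ToType) := by
    rw [mk_ord_toType, Cardinal.mk_set, Cardinal.mk_prod, Cardinal.lift_id, Cardinal.lift_id]
    exact Cardinal.power_le_power_left two_ne_zero
      ((mul_le_mul' hA hS).trans (Cardinal.mul_eq_self hχ).le)
  obtain ⟨f⟩ := h1
  have hf : Function.Surjective (Function.invFun f) := Function.invFun_surjective f.injective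
  refine ⟨fun i => nameOf σ (Function.invFun f i), fun X p => ?_⟩
  obtain ⟨q, hq, W, hW⟩ := exists_nameOf hπ hσ hπσ hsurj hχ hE hA hS X p
  obtain ⟨i, rfl⟩ := hf W
  exact ⟨q, hq, i, hW⟩

end

end FTP
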