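import Pool.Agent.Lib.FTP.StrLim

/-!
# The final forcing notion forces the supremum of the cardinals to be a strong limit
-/

namespace FTP

open Cardinal CAT9 CLC

theorem directedClosed_prod {A B : Type} [Preorder A] [Preorder B] {χ : Cardinal.{0}}
    (hA : DirectedClosed χ A) (hB : DirectedClosed χ B) : DirectedClosed χ (A × B) := by
  intro S hS hd
  obtain ⟨a, ha⟩ := hA (Prod.fst '' S) (Cardinal.mk_image_le.trans hS) (by
    rintro _ ⟨x, hx, rfl⟩ _ ⟨y, hy, rfl⟩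
    obtain ⟨z, hz, h1, h2⟩ := hd x hx y hy
    exact ⟨z.1, ⟨z, hz, rfl⟩, h1.1, h2.1⟩)
  obtain ⟨b, hb⟩ := hB (Prod.snd '' S) (Cardinal.mk_image_le.trans hS) (by
    rintro _ ⟨x, hx, rfl⟩ _ ⟨y, hy, rfl⟩
    obtain ⟨z, hz, h1, h2⟩ := hd x hx y hy
    exact ⟨z.2, ⟨z, hz, rfl⟩, h1.2, h2.2⟩)
  exact ⟨(a, b), fun s hs => ⟨ha _ ⟨s, hs, rfl⟩, hb _ ⟨s, hs, rfl⟩⟩⟩

theorem directedClosed_mono {A : Type} [Preorder A] {χ χ' : Cardinal.{0}} (h : χ ≤ χ')
    (hA : DirectedClosed χ' A) : DirectedClosed χ A := fun S hS => hA S (hS.trans h)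

section

variable {κ : ℕ → Cardinal.{0}} (a : Nod (κ 0)) (m : ℕ)

/-- The closed part. -/
abbrev ClP (κ : ℕ → Cardinal.{0}) (m : ℕ) : Type := DD κ × Ege κ m

/-- The small part. -/
abbrev SmP {κ : ℕ → Cardinal.{0}} (a : Nod (κ 0)) (m : ℕ) : Type := KK κ a × (CC κ a × Elt κ m)

/-- The projection of the product onto the final forcing notion. -/
noncomputable def prj (z : ClP κ m × SmP a m) : PP κ a :=
  proj κ a (z.1.1, (z.2.1, (z.2.2.1, join2 z.2.2.2 z.1.2)))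

/-- The small part of a condition. -/
def sml (p : PP κ a) : SmP a m := (p.1.k, (p.2.1, lo m p.2.2))

variable {a m}

theorem sml_mono (p q : PP κ a) (h : q ≤ p) : sml a m q ≤ sml a m p :=
  ⟨h.1.1, h.2.1, lo_le h.2.2⟩

theorem sml_prj (z : ClP κ m × SmP a m) : sml a m (prj a m z) = z.2 := by
  obtain ⟨⟨d, e⟩, k, c, f⟩ := z
  change (k, (c, lo m (join2 f e))) = (k, (c, f))
  rw [lo_join2]

theorem isProj_prj (h : IsProj (proj κ a)) : IsProj (prj a m) where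
  mono := by
    rintro ⟨⟨d, e⟩, k, c, f⟩ ⟨⟨d', e'⟩, k', c', f'⟩ ⟨⟨h1, h2⟩, h3, h4, h5⟩
    exact h.mono _ _ ⟨h1, h3, h4, join2_le h5 h2⟩
  lift := by
    rintro ⟨⟨d, e⟩, k, c, f⟩ q hq
    obtain ⟨⟨d', k', c', h'⟩, ⟨h1, h2, h3, h4⟩, h5⟩ := h.lift _ q hq
    refine ⟨((d', hi m h'), (k', (c', lo m h'))), ⟨⟨h1, ?_⟩, h2, h3, ?_⟩, ?_⟩
    · have h6 := hi_le (m := m) h4
      rw [hi_join2] at h6
      exact h6
    · have h6 := lo_le (m := m) h4
      rw [lo_join2] at h6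
      exact h6
    · change proj κ a (d', (k', (c', join2 (lo m h') (hi m h')))) ≤ q
      rw [join2_lo_hi]
      exact h5

theorem exists_prj [hA : Amb (Lev (nu κ)) (Nod (nu κ))] (p : PP κ a) :
    ∃ z : ClP κ m × SmP a m, prj a m z ≤ p := by
  classical
  have hne : Nonempty (Nod (nu κ)) := Amb.neM _ hA
  obtain ⟨⟨k, pc⟩, c, h⟩ := p
  have hq : ∀ b, Nonempty (QA κ b) := fun b => fam_nonempty _ _
  let q0 : QA κ a := mkQ pc (pc.t pc.ht (Classical.arbitrary _)) (LocIn.self _ _ _ _)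
  let d : DD κ := Function.update (fun b => (hq b).some) a q0
  refine ⟨((d, hi m h), (k, (c, lo m h))), ?_⟩
  have h1 : prj a m ((d, hi m h), (k, (c, lo m h))) = (⟨k, pc⟩, c, h) := by
    change ((⟨k, (d a).p⟩ : KPA κ a), (c, join2 (lo m h) (hi m h))) = (⟨k, pc⟩, c, h)
    have h2 : d a = q0 := Function.update_self _ _ _
    rw [join2_lo_hi, h2]
    rfl
  rw [h1]

/-- Strong limit: the statement for one cardinal. -/
theorem names_PP [hA : Amb (Lev (nu κ)) (Nod (nu κ))] (h : IsProj (proj κ a)) {χ : Cardinal.{0}}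
    (hχ : ℵ₀ ≤ χ) (hD : DirectedClosed χ (DD κ)) (hE : DirectedClosed χ (Ege κ m))
    (hS : #(SmP a m) ≤ χ) {A : Type} (hA' : #A ≤ χ) :
    ∃ N : (2 ^ χ : Cardinal.{0}).ord.ToType → SetName (PP κ a) A,
      ∀ (X : SetName (PP κ a) A) (p : PP κ a),
      ∃ q, q ≤ p ∧ ∃ i, ∀ r, r ≤ q → ∀ b, X.In r b ↔ (N i).In r b :=
  exists_names (isProj_prj h) (σ := sml a m) sml_mono sml_prj exists_prj hχ
    (directedClosed_prod hD hE) hA' hS

end

end FTP
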